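import Pool.Agent.Helper26.KD.St

/-! # Project CB (MP_65faa7), module Tay: Taylor expansion of the weights -/

set_option autoImplicit false

open scoped BigOperators ENNReal Topology
open Pool.LE Pool.NL Filter

namespace Pool.KD

namespace TayM

theorem mvt (f f' : ℝ → ℝ) (h C : ℝ) (hf : ∀ t ∈ Set.uIcc 0 h, HasDerivAt f (f' t) t)
    (hb : ∀ t ∈ Set.uIcc 0 h, |f' t| ≤ C) (h0 : f 0 = 0) : ∀ t ∈ Set.uIcc 0 h, |f t| ≤ C * |h| := by
  intro t ht
  have h1 := Convex.norm_image_sub_le_of_norm_hasDerivWithin_le (f := f) (f' := f') (C := C)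
    (fun t ht => (hf t ht).hasDerivWithinAt) (fun t ht => by rw [Real.norm_eq_abs]; exact hb t ht)
    (convex_uIcc 0 h) Set.left_mem_uIcc ht
  rw [h0, sub_zero, sub_zero, Real.norm_eq_abs, Real.norm_eq_abs] at h1
  have hC : 0 ≤ C := (abs_nonneg _).trans (hb 0 Set.left_mem_uIcc)
  refine h1.trans (mul_le_mul_of_nonneg_left ?_ hC)
  rcases Set.mem_uIcc.1 ht with h2 | h2
  · rw [abs_of_nonneg h2.1, abs_of_nonneg (h2.1.trans h2.2)]
    exact h2.2
  · rw [abs_of_nonpos h2.2, abs_of_nonpos (h2.1.trans h2.2)]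
    linarith [h2.1]

theorem drp (β t : ℝ) (ht : 0 < 1 + t) :
    HasDerivAt (fun t : ℝ => (1 + t) ^ β) (β * (1 + t) ^ (β - 1)) t := by
  have h1 : HasDerivAt (fun t : ℝ => 1 + t) 1 t := (hasDerivAt_id t).const_add 1
  have h2 := h1.rpow_const (p := β) (Or.inl ht.ne')
  refine h2.congr_deriv ?_
  ring

/-- Taylor expansion of a power -/
theorem tay3 (α : ℝ) (hα : α ≤ 0) : ∃ M : ℝ, 0 ≤ M ∧ ∀ h : ℝ, 1 / 64 ≤ 1 + h →
    |(1 + h) ^ α - 1 - α * h - α * (α - 1) / 2 * h ^ 2| ≤ M * |h| ^ 3 := by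
  refine ⟨|α * (α - 1) * (α - 2)| * (1 / 64 : ℝ) ^ (α - 3), by positivity, ?_⟩
  intro h hh
  set M : ℝ := |α * (α - 1) * (α - 2)| * (1 / 64 : ℝ) ^ (α - 3) with hM
  have hlow : ∀ t ∈ Set.uIcc 0 h, 1 / 64 ≤ 1 + t := by
    intro t ht
    rcases Set.mem_uIcc.1 ht with h2 | h2
    · linarith [h2.1]
    · linarith [h2.1]
  have hpos : ∀ t ∈ Set.uIcc 0 h, 0 < 1 + t := fun t ht => by linarith [hlow t ht]
  have b2 := mvt (fun t => α * (α - 1) * (1 + t) ^ (α - 2) - α * (α - 1))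
    (fun t => α * (α - 1) * (α - 2) * (1 + t) ^ (α - 3)) h M
    (fun t ht => by
      have h1 := ((drp (α - 2) t (hpos t ht)).const_mul (α * (α - 1))).sub_const (α * (α - 1))
      refine h1.congr_deriv ?_
      rw [show α - 2 - 1 = α - 3 by ring]
      ring)
    (fun t ht => by
      rw [abs_mul]
      refine mul_le_mul_of_nonneg_left ?_ (abs_nonneg _)
      rw [abs_of_pos (Real.rpow_pos_of_pos (hpos t ht) _)]
      exact Real.rpow_le_rpow_of_nonpos (by norm_num) (hlow t ht) (by linarith))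
    (by simp)
  have b1 := mvt (fun t => α * (1 + t) ^ (α - 1) - α - α * (α - 1) * t)
    (fun t => α * (α - 1) * (1 + t) ^ (α - 2) - α * (α - 1)) h (M * |h|)
    (fun t ht => by
      have h1 := (((drp (α - 1) t (hpos t ht)).const_mul α).sub_const α).sub
        ((hasDerivAt_id t).const_mul (α * (α - 1)))
      refine h1.congr_deriv ?_
      rw [show α - 1 - 1 = α - 2 by ring]
      ring)
    b2 (by simp)
  have b0 := mvt (fun t => (1 + t) ^ α - 1 - α * t - α * (α - 1) / 2 * t ^ 2)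
    (fun t => α * (1 + t) ^ (α - 1) - α - α * (α - 1) * t) h (M * |h| * |h|)
    (fun t ht => by
      have h1 := ((((drp α t (hpos t ht)).sub_const 1).sub
        ((hasDerivAt_id t).const_mul α))).sub ((hasDerivAt_pow 2 t).const_mul (α * (α - 1) / 2))
      refine h1.congr_deriv ?_
      simp only [Nat.cast_ofNat]
      ring)
    b1 (by simp)
  refine (b0 h Set.right_mem_uIcc).trans (le_of_eq ?_)
  ring

end TayM

/-- Taylor expansion of third order -/
theorem hTay (hW : StW) : StTay := by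
  intro s hs
  obtain ⟨M, hM0, hM⟩ := TayM.tay3 (-(s / 2)) (by linarith)
  refine ⟨27 * M + 5 / 2 * (s / 2 * (s / 2 + 1)) + 8 + 7 * s + s ^ 2, by nlinarith, ?_⟩
  intro d m x y hm
  obtain ⟨W1, W2, W3, -, -, -, W7, -⟩ := hW d m hm
  obtain ⟨q1, nx0, nx2, -, q4, q5⟩ := W1 x
  obtain ⟨-, ny0, ny2, -, -, -⟩ := W1 y
  obtain ⟨qy1, -⟩ := W1 (x - y)
  obtain ⟨-, hdt, hq⟩ := W2 x y
  have hm0 : 0 < m := by linarith
  set q : ℝ := qq m x with hqd
  have hq0 : 0 < q := by linarith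
  set R : ℝ := Real.sqrt q with hR
  have hR2 : R ^ 2 = q := Real.sq_sqrt hq0.le
  have hR1 : 1 ≤ R := by
    rw [hR]
    exact Real.one_le_sqrt.2 q1
  have hR0 : 0 < R := by linarith
  set v : ℝ := nn y / m with hv
  have hv0 : 0 ≤ v := div_nonneg ny0 hm0.le
  set X : ℝ := nn x / m with hX
  have hX0 : 0 ≤ X := div_nonneg nx0 hm0.le
  set a : ℝ := dt x y / m ^ 2 with ha
  set Z : ℝ := q ^ (-(s / 2) - 2) with hZ
  have hZ0 : 0 < Z := Real.rpow_pos_of_pos hq0 _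
  -- the powers
  have hXR : 1 + X ≤ 2 * R := by
    have h1 : (1 + X) ^ 2 ≤ (2 * R) ^ 2 := by
      rw [mul_pow, hR2]; linarith
    exact le_of_sq_le_sq h1 (by linarith)
  have hRX : R ≤ 1 + X := by
    have h1 : R ^ 2 ≤ (1 + X) ^ 2 := by rw [hR2]; exact q4
    exact le_of_sq_le_sq h1 (by linarith)
  have hXR' : X ≤ R := by
    have h1 : X ^ 2 ≤ R ^ 2 := by
      rw [hR2, hqd, qq, hX, div_pow, nx2]; linarith
    exact le_of_sq_le_sq h1 (by linarith)
  have hav : |a| ≤ v * R := by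
    have h1 : |a| ≤ X * v := by
      rw [ha, abs_div, abs_of_pos (by positivity : (0 : ℝ) < m ^ 2), div_le_iff₀ (by positivity)]
      refine hdt.trans (le_of_eq ?_)
      rw [hX, hv]
      field_simp
    refine h1.trans ?_
    rw [mul_comm]
    exact mul_le_mul_of_nonneg_left hXR' hv0
  have hv2 : LE.sq y / m ^ 2 = v ^ 2 := by rw [hv, div_pow, ny2]
  have e1 : q ^ (-(s / 2) - 1) = Z * R ^ 2 := by
    rw [hR2, hZ]
    have h1 := Real.rpow_add hq0 (-(s / 2) - 2) 1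
    rw [Real.rpow_one] at h1
    rw [← h1]
    congr 1
    ring
  have e0 : q ^ (-(s / 2)) = Z * R ^ 4 := by
    have h1 := Real.rpow_add hq0 (-(s / 2) - 2) 2
    have h2 : q ^ (2 : ℝ) = R ^ 4 := by
      rw [show (2 : ℝ) = ((2 : ℕ) : ℝ) by norm_num, Real.rpow_natCast, ← hR2]
      ring
    rw [h2] at h1
    rw [hZ, ← h1]
    congr 1
    ring
  have e3 : ww (s + 3) m x = Z * R := by
    have h1 := Real.rpow_add hq0 (-(s / 2) - 2) (1 / 2)
    rw [← Real.sqrt_eq_rpow] at h1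
    rw [ww, hZ, ← hqd, hR, ← h1]
    congr 1
    ring
  have t1e : t1 s m x y = s * a * (Z * R ^ 2) := by
    rw [t1, ← hqd, e1, ha]
    ring
  have t2e : t2 s m x y = s * (s + 2) / 2 * a ^ 2 * Z - s / 2 * v ^ 2 * (Z * R ^ 2) := by
    rw [t2, ← hqd, e1, hv2, ← hZ, ha, div_pow]
    ring
  have hwx : ww s m x = Z * R ^ 4 := by rw [ww, ← hqd, e0]
  have hvR3 : 0 ≤ v ^ 3 * (Z * R) := by positivity
  by_cases hcase : m + nn x < 2 * nn y
  · rw [if_pos hcase, e3]
    have h2v : 1 + X ≤ 2 * v := by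
      rw [hX, hv]
      have h1 : (m + nn x) / m ≤ 2 * nn y / m := div_le_div_of_nonneg_right hcase.le hm0.le
      rw [add_div, div_self hm0.ne'] at h1
      linarith [h1, mul_div_assoc 2 (nn y) m]
    have hR2v : R ≤ 2 * v := hRX.trans h2v
    have hwp := (W3 s (x - y) hs.le).1
    have k0 : |ww s m x| ≤ 8 * (v ^ 3 * (Z * R)) := by
      rw [hwx, abs_of_pos (by positivity)]
      have h1 : R ^ 3 ≤ (2 * v) ^ 3 := pow_le_pow_left₀ hR0.le hR2v 3
      calc Z * R ^ 4 = R ^ 3 * (Z * R) := by ring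
        _ ≤ (2 * v) ^ 3 * (Z * R) := mul_le_mul_of_nonneg_right h1 (by positivity)
        _ = 8 * (v ^ 3 * (Z * R)) := by ring
    have k1 : |t1 s m x y| ≤ 4 * s * (v ^ 3 * (Z * R)) := by
      rw [t1e, abs_mul, abs_mul, abs_of_pos hs, abs_of_pos (by positivity : 0 < Z * R ^ 2)]
      have h1 : R ^ 2 ≤ (2 * v) ^ 2 := pow_le_pow_left₀ hR0.le hR2v 2
      calc s * |a| * (Z * R ^ 2) ≤ s * (v * R) * (Z * R ^ 2) := by
            refine mul_le_mul_of_nonneg_right (mul_le_mul_of_nonneg_left hav hs.le) (by positivity)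
        _ = s * v * (Z * R) * R ^ 2 := by ring
        _ ≤ s * v * (Z * R) * (2 * v) ^ 2 := mul_le_mul_of_nonneg_left h1 (by positivity)
        _ = 4 * s * (v ^ 3 * (Z * R)) := by ring
    have k2 : |t2 s m x y| ≤ (s ^ 2 + 3 * s) * (v ^ 3 * (Z * R)) := by
      have h1 : a ^ 2 ≤ (v * R) ^ 2 := by
        rw [← sq_abs a]
        exact pow_le_pow_left₀ (abs_nonneg _) hav 2
      have h2 : |t2 s m x y| ≤ s * (s + 2) / 2 * a ^ 2 * Z + s / 2 * v ^ 2 * (Z * R ^ 2) := by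
        rw [t2e]
        refine (abs_sub _ _).trans (le_of_eq ?_)
        rw [abs_of_nonneg (by positivity), abs_of_nonneg (by positivity)]
      calc |t2 s m x y| ≤ s * (s + 2) / 2 * a ^ 2 * Z + s / 2 * v ^ 2 * (Z * R ^ 2) := h2
        _ ≤ s * (s + 2) / 2 * (v * R) ^ 2 * Z + s / 2 * v ^ 2 * (Z * R ^ 2) := by
            refine add_le_add ?_ le_rfl
            refine mul_le_mul_of_nonneg_right (mul_le_mul_of_nonneg_left h1 (by positivity)) hZ0.le
        _ = (s ^ 2 + 3 * s) / 2 * v ^ 2 * (Z * R) * R := by ring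
        _ ≤ (s ^ 2 + 3 * s) / 2 * v ^ 2 * (Z * R) * (2 * v) :=
            mul_le_mul_of_nonneg_left hR2v (by positivity)
        _ = (s ^ 2 + 3 * s) * (v ^ 3 * (Z * R)) := by ring
    have h3 : |ww s m (x - y) - ww s m x - t1 s m x y - t2 s m x y| ≤
        |ww s m (x - y)| + |ww s m x| + |t1 s m x y| + |t2 s m x y| := by
      refine (abs_sub _ _).trans (add_le_add ((abs_sub _ _).trans (add_le_add (abs_sub _ _) le_rfl))
        le_rfl)
    rw [abs_of_pos hwp] at h3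
    have h4 : 0 ≤ (27 * M + 5 / 2 * (s / 2 * (s / 2 + 1))) * (v ^ 3 * (Z * R)) := by positivity
    nlinarith [h3, k0, k1, k2, h4]
  · rw [if_neg hcase, add_zero, e3]
    push Not at hcase
    have h2v : 2 * v ≤ 1 + X := by
      rw [hX, hv]
      have h1 : 2 * nn y / m ≤ (m + nn x) / m := div_le_div_of_nonneg_right hcase hm0.le
      rw [add_div, div_self hm0.ne'] at h1
      linarith [h1, mul_div_assoc 2 (nn y) m]
    have hvR : v ≤ R := by linarith
    set h : ℝ := (v ^ 2 - 2 * a) / q with hh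
    have hq' : qq m (x - y) = q * (1 + h) := by
      rw [hq, hv2, hh, mul_add, mul_one, mul_div_cancel₀ _ hq0.ne', ha]
      ring
    have hlow : 1 / 64 ≤ 1 + h := by
      have h1 := W7 2 x y (by norm_num) hcase
      have h2 : ∀ z : Zd d, ww 2 m z = (qq m z)⁻¹ := by
        intro z
        rw [ww, show -((2 : ℝ) / 2) = -1 by norm_num, Real.rpow_neg_one]
      rw [h2, h2, ← hqd, show (8 : ℝ) ^ (2 : ℝ) = 64 by
        rw [show (2 : ℝ) = ((2 : ℕ) : ℝ) by norm_num, Real.rpow_natCast]; norm_num, hq'] at h1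
      have h3 : 0 < q * (1 + h) := by rw [← hq']; linarith
      have h4 : 0 < 1 + h := (mul_pos_iff_of_pos_left hq0).1 h3
      rw [mul_inv, mul_comm (q⁻¹), mul_comm (64 : ℝ)] at h1
      have h5 : (1 + h)⁻¹ * q⁻¹ ≤ 64 * q⁻¹ := by linarith
      have h6 : (1 + h)⁻¹ ≤ 64 := le_of_mul_le_mul_right h5 (inv_pos.2 hq0)
      rw [one_div]
      exact (inv_le_comm₀ h4 (by norm_num)).1 h6
    have h1h : 0 < 1 + h := by linarith
    have hwxy : ww s m (x - y) = Z * R ^ 4 * (1 + h) ^ (-(s / 2)) := by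
      rw [ww, hq', Real.mul_rpow hq0.le h1h.le, e0]
    have hgh := hM h hlow
    set g : ℝ := (1 + h) ^ (-(s / 2)) - 1 - -(s / 2) * h - -(s / 2) * (-(s / 2) - 1) / 2 * h ^ 2
      with hg
    have hhR : R ^ 2 * h = v ^ 2 - 2 * a := by
      rw [hR2, hh, mul_div_cancel₀ _ hq0.ne']
    have hmain : ww s m (x - y) - ww s m x - t1 s m x y - t2 s m x y =
        Z * (R ^ 4 * g) + Z * (s / 2 * (s / 2 + 1) / 2) * (v ^ 4 - 4 * a * v ^ 2) := by
      rw [hwxy, hwx, t1e, t2e]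
      have h2 : (1 + h) ^ (-(s / 2)) = g + 1 + -(s / 2) * h + -(s / 2) * (-(s / 2) - 1) / 2 * h ^ 2 := by
        rw [hg]; ring
      rw [h2]
      have h3 : R ^ 4 * (g + 1 + -(s / 2) * h + -(s / 2) * (-(s / 2) - 1) / 2 * h ^ 2) =
          R ^ 4 * g + R ^ 4 + -(s / 2) * R ^ 2 * (R ^ 2 * h) +
            -(s / 2) * (-(s / 2) - 1) / 2 * (R ^ 2 * h) ^ 2 := by ring
      have h4 : Z * R ^ 4 * (g + 1 + -(s / 2) * h + -(s / 2) * (-(s / 2) - 1) / 2 * h ^ 2) =
          Z * (R ^ 4 * (g + 1 + -(s / 2) * h + -(s / 2) * (-(s / 2) - 1) / 2 * h ^ 2)) := by ring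
      rw [h4, h3, hhR]
      ring
    have hδ : |R ^ 2 * h| ≤ 3 * v * R := by
      rw [hhR]
      refine (abs_sub _ _).trans ?_
      rw [abs_of_nonneg (by positivity : 0 ≤ v ^ 2), abs_mul, abs_two]
      have h5 : v ^ 2 ≤ v * R := by rw [_root_.sq]; exact mul_le_mul_of_nonneg_left hvR hv0
      linarith
    have hRh : R * |h| ≤ 3 * v := by
      rw [abs_mul, abs_of_pos (by positivity : 0 < R ^ 2)] at hδ
      have h6 : R * |h| * R ≤ 3 * v * R := by
        calc R * |h| * R = R ^ 2 * |h| := by ring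
          _ ≤ 3 * v * R := hδ
      exact le_of_mul_le_mul_right h6 hR0
    have hR3 : R ^ 3 * |h| ^ 3 ≤ 27 * v ^ 3 := by
      have h7 := pow_le_pow_left₀ (by positivity : 0 ≤ R * |h|) hRh 3
      calc R ^ 3 * |h| ^ 3 = (R * |h|) ^ 3 := by ring
        _ ≤ (3 * v) ^ 3 := h7
        _ = 27 * v ^ 3 := by ring
    have k1 : |Z * (R ^ 4 * g)| ≤ 27 * M * (v ^ 3 * (Z * R)) := by
      rw [abs_mul, abs_mul, abs_of_pos hZ0, abs_of_pos (by positivity : 0 < R ^ 4)]
      calc Z * (R ^ 4 * |g|) ≤ Z * (R ^ 4 * (M * |h| ^ 3)) := by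
            refine mul_le_mul_of_nonneg_left (mul_le_mul_of_nonneg_left hgh (by positivity)) hZ0.le
        _ = Z * R * M * (R ^ 3 * |h| ^ 3) := by ring
        _ ≤ Z * R * M * (27 * v ^ 3) := mul_le_mul_of_nonneg_left hR3 (by positivity)
        _ = 27 * M * (v ^ 3 * (Z * R)) := by ring
    have k2 : |Z * (s / 2 * (s / 2 + 1) / 2) * (v ^ 4 - 4 * a * v ^ 2)| ≤
        5 / 2 * (s / 2 * (s / 2 + 1)) * (v ^ 3 * (Z * R)) := by
      rw [abs_mul, abs_of_pos (by positivity : 0 < Z * (s / 2 * (s / 2 + 1) / 2))]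
      have h8 : |v ^ 4 - 4 * a * v ^ 2| ≤ 5 * (v ^ 3 * R) := by
        refine (abs_sub _ _).trans ?_
        rw [abs_of_nonneg (by positivity : 0 ≤ v ^ 4), abs_mul, abs_mul,
          abs_of_pos (by norm_num : (0 : ℝ) < 4), abs_of_nonneg (by positivity : 0 ≤ v ^ 2)]
        have h9 : v ^ 4 ≤ v ^ 3 * R := by
          calc v ^ 4 = v ^ 3 * v := by ring
            _ ≤ v ^ 3 * R := mul_le_mul_of_nonneg_left hvR (by positivity)
        have h10 : 4 * |a| * v ^ 2 ≤ 4 * (v * R) * v ^ 2 :=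
          mul_le_mul_of_nonneg_right (mul_le_mul_of_nonneg_left hav (by norm_num)) (by positivity)
        calc v ^ 4 + 4 * |a| * v ^ 2 ≤ v ^ 3 * R + 4 * (v * R) * v ^ 2 := add_le_add h9 h10
          _ = 5 * (v ^ 3 * R) := by ring
      calc Z * (s / 2 * (s / 2 + 1) / 2) * |v ^ 4 - 4 * a * v ^ 2|
          ≤ Z * (s / 2 * (s / 2 + 1) / 2) * (5 * (v ^ 3 * R)) :=
            mul_le_mul_of_nonneg_left h8 (by positivity)
        _ = 5 / 2 * (s / 2 * (s / 2 + 1)) * (v ^ 3 * (Z * R)) := by ring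
    rw [hmain]
    refine (abs_add_le _ _).trans ?_
    have h11 : 0 ≤ (8 + 7 * s + s ^ 2) * (v ^ 3 * (Z * R)) := by positivity
    calc _ ≤ 27 * M * (v ^ 3 * (Z * R)) + 5 / 2 * (s / 2 * (s / 2 + 1)) * (v ^ 3 * (Z * R)) :=
          add_le_add k1 k2
      _ ≤ (27 * M + 5 / 2 * (s / 2 * (s / 2 + 1)) + 8 + 7 * s + s ^ 2) * v ^ 3 * (Z * R) := by
          linarith

end Pool.KD
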